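import Pool.Agent.Hhelper9.G24.Main

/-!
# The groups `Γ_{2,4}` and `Γ_{4,2}` are finite

`rel s t`: the seven relators.  `Gam s t`: the group with generators `0, 1, 2` (for `σ₁, σ₂, σ₃`) and these
relators.
-/

set_option autoImplicit false

namespace Pool.Agent.Results.MP_9c3b79_al.FiniteTwoFour

open Pool.Agent.Hhelper9.G24

/-- the relators of `Γ_{s,t}`; the generators `σ₁, σ₂, σ₃` are `of 0`, `of 1`, `of 2` -/
def rel (s t : ℕ) : Set (FreeGroup (Fin 3)) :=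
  {FreeGroup.of 0 ^ 4, FreeGroup.of 1 ^ 4, FreeGroup.of 2 ^ 3,
    (FreeGroup.of 0 * FreeGroup.of 1) ^ 2, (FreeGroup.of 1 * FreeGroup.of 2) ^ 2,
    (FreeGroup.of 0 * FreeGroup.of 1 * FreeGroup.of 2) ^ 2,
    ((FreeGroup.of 0)⁻¹ * FreeGroup.of 1) ^ s * (FreeGroup.of 0 * (FreeGroup.of 1)⁻¹) ^ t}

/-- the group `Γ_{s,t}` -/
abbrev Gam (s t : ℕ) : Type := PresentedGroup (rel s t)

private theorem key (s t : ℕ) : ∀ r ∈ rel s t, (PresentedGroup.mk (rel s t)) r = 1 :=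
  fun _ hr => PresentedGroup.one_of_mem hr

private theorem rels24 {G : Type} [Group G] {a b c : G} {s t : ℕ} (f : FreeGroup (Fin 3) →* G)
    (h0 : f (FreeGroup.of 0) = a) (h1 : f (FreeGroup.of 1) = b) (h2 : f (FreeGroup.of 2) = c)
    (hf : ∀ r ∈ rel s t, f r = 1) :
    a ^ 4 = 1 ∧ b ^ 4 = 1 ∧ c ^ 3 = 1 ∧ (a * b) ^ 2 = 1 ∧ (b * c) ^ 2 = 1 ∧ (a * b * c) ^ 2 = 1 ∧
      (a⁻¹ * b) ^ s * (a * b⁻¹) ^ t = 1 := by
  subst h0 h1 h2
  refine ⟨?_, ?_, ?_, ?_, ?_, ?_, ?_⟩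
  · have := hf (FreeGroup.of 0 ^ 4) (by simp [rel])
    simpa only [map_pow, map_mul, map_inv] using this
  · have := hf (FreeGroup.of 1 ^ 4) (by simp [rel])
    simpa only [map_pow, map_mul, map_inv] using this
  · have := hf (FreeGroup.of 2 ^ 3) (by simp [rel])
    simpa only [map_pow, map_mul, map_inv] using this
  · have := hf ((FreeGroup.of 0 * FreeGroup.of 1) ^ 2) (by simp [rel])
    simpa only [map_pow, map_mul, map_inv] using this
  · have := hf ((FreeGroup.of 1 * FreeGroup.of 2) ^ 2) (by simp [rel])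
    simpa only [map_pow, map_mul, map_inv] using this
  · have := hf ((FreeGroup.of 0 * FreeGroup.of 1 * FreeGroup.of 2) ^ 2) (by simp [rel])
    simpa only [map_pow, map_mul, map_inv] using this
  · have := hf (((FreeGroup.of 0)⁻¹ * FreeGroup.of 1) ^ s * (FreeGroup.of 0 * (FreeGroup.of 1)⁻¹) ^ t)
      (by simp [rel])
    simpa only [map_pow, map_mul, map_inv] using this

private theorem gen (s t : ℕ) : Subgroup.closure
    {PresentedGroup.of (rels := rel s t) 0, PresentedGroup.of (rels := rel s t) 1,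
      PresentedGroup.of (rels := rel s t) 2} = ⊤ := by
  rw [← PresentedGroup.closure_range_of (rel s t)]
  congr 1
  ext x
  simp only [Set.mem_insert_iff, Set.mem_singleton_iff, Set.mem_range]
  constructor
  · rintro (rfl | rfl | rfl)
    · exact ⟨0, rfl⟩
    · exact ⟨1, rfl⟩
    · exact ⟨2, rfl⟩
  · rintro ⟨i, rfl⟩
    fin_cases i
    · exact Or.inl rfl
    · exact Or.inr (Or.inl rfl)
    · exact Or.inr (Or.inr rfl)

/-- the mirror image: `σ₁ ↦ σ₁⁻¹`, `σ₂ ↦ σ₁² σ₂`, `σ₃ ↦ σ₃` -/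
private theorem mirror {G : Type} [Group G] {a b c : G} (ha : a ^ 4 = 1) (hb : b ^ 4 = 1)
    (hc : c ^ 3 = 1) (hab : (a * b) ^ 2 = 1) (hbc : (b * c) ^ 2 = 1) (habc : (a * b * c) ^ 2 = 1)
    (hT : (a⁻¹ * b) ^ 4 * (a * b⁻¹) ^ 2 = 1) : Rels a⁻¹ (a ^ 2 * b) c := by
  have hab' : (a * b)⁻¹ = a * b := by
    rw [inv_eq_iff_mul_eq_one, ← pow_two]
    exact hab
  -- `b' = a b⁻¹ a⁻¹`
  have hb' : a ^ 2 * b = a * b⁻¹ * a⁻¹ := by
    calc a ^ 2 * b = a * (a * b) := by rw [pow_two, mul_assoc]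
      _ = a * (a * b)⁻¹ := by rw [hab']
      _ = a * b⁻¹ * a⁻¹ := by group
  have hab1 : a⁻¹ * (a ^ 2 * b) = a * b := by group
  -- `τ = a b c`, `τ a τ = a⁻¹`
  have hτ : (a * b * c)⁻¹ = a * b * c := by
    rw [inv_eq_iff_mul_eq_one, ← pow_two]
    exact habc
  have hbc2 : (a⁻¹ * (a * b * c)) * (a⁻¹ * (a * b * c)) = 1 := by
    have : a⁻¹ * (a * b * c) = b * c := by group
    rw [this, ← pow_two]
    exact hbc
  have hconj : (a * b * c) * a⁻¹ * (a * b * c) = a := by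
    have h1 : a⁻¹ * ((a * b * c) * a⁻¹ * (a * b * c)) = 1 := by
      rw [← hbc2]
      group
    calc (a * b * c) * a⁻¹ * (a * b * c) = a * (a⁻¹ * ((a * b * c) * a⁻¹ * (a * b * c))) := by group
      _ = a := by rw [h1, mul_one]
  have hconj2 : (a * b * c) * a * (a * b * c) = a⁻¹ := by
    have h2 := congrArg (fun z => z⁻¹) hconj
    simp only [mul_inv_rev, inv_inv] at h2
    have h3 : (a * b * c)⁻¹ * (a * (a * b * c)⁻¹) = a⁻¹ := by
      rw [← h2]
      group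
    rw [hτ] at h3
    rw [← h3]
    group
  -- translations
  have hX : a⁻¹⁻¹ * (a ^ 2 * b) = a⁻¹ * b := by
    have h4 : a ^ 3 = a⁻¹ := by
      have : a ^ 3 * a = 1 := by
        rw [← ha]
        group
      exact eq_inv_of_mul_eq_one_left this
    calc a⁻¹⁻¹ * (a ^ 2 * b) = a ^ 3 * b := by group
      _ = a⁻¹ * b := by rw [h4]
  have hba : (b * a)⁻¹ = b * a := by
    have h1 : (b * a) * (b * a) = a⁻¹ * ((a * b) ^ 2) * a := by
      rw [pow_two]
      group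
    rw [hab] at h1
    rw [inv_eq_iff_mul_eq_one, h1]
    group
  have hY : a⁻¹ * (a ^ 2 * b)⁻¹ = (a * b⁻¹)⁻¹ := by
    rw [hb']
    group
  -- conjugation by `b`: `b⁻¹ X b = Y`, `b⁻¹ Y b = X⁻¹`
  have hXY : b⁻¹ * (a⁻¹ * b) * b = a * b⁻¹ := by
    have h7 : b ^ 3 = b⁻¹ := by
      have : b ^ 3 * b = 1 := by
        rw [← hb]
        group
      exact eq_inv_of_mul_eq_one_left this
    calc b⁻¹ * (a⁻¹ * b) * b = (a * b)⁻¹ * b ^ 2 := by
          rw [pow_two]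
          group
      _ = a * b * b ^ 2 := by rw [hab']
      _ = a * b ^ 3 := by rw [mul_assoc, ← pow_succ']
      _ = a * b⁻¹ := by rw [h7]
  have hYX : b⁻¹ * (a * b⁻¹) * b = (a⁻¹ * b)⁻¹ := by group
  have hT2 : (a * b⁻¹) ^ 4 * ((a⁻¹ * b)⁻¹) ^ 2 = 1 := by
    have cp : ∀ (g x : G) (n : ℕ), (g⁻¹ * x * g) ^ n = g⁻¹ * x ^ n * g := fun g x n => by
      have := conj_pow (i := n) (a := g⁻¹) (b := x)
      rw [inv_inv] at this
      exact this
    have h8 : b⁻¹ * ((a⁻¹ * b) ^ 4 * (a * b⁻¹) ^ 2) * b =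
        (b⁻¹ * (a⁻¹ * b) * b) ^ 4 * (b⁻¹ * (a * b⁻¹) * b) ^ 2 := by
      rw [cp, cp]
      group
    rw [hT, hXY, hYX] at h8
    rw [← h8]
    group
  constructor
  · rw [inv_pow, ha, inv_one]
  · rw [hb']
    rw [conj_pow, inv_pow, hb]
    group
  · exact hc
  · rw [hab1]
    exact hab
  · have h9 : (a ^ 2 * b * c) ^ 2 = a * ((a * b * c) * a * (a * b * c)) := by
      simp only [pow_two]
      group
    rw [h9, hconj2, mul_inv_cancel]
  · rw [hab1]
    exact habc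
  · rw [hX, hY]
    have h10 : ((a * b⁻¹) ^ 4 * ((a⁻¹ * b)⁻¹) ^ 2)⁻¹ = (a⁻¹ * b) ^ 2 * ((a * b⁻¹)⁻¹) ^ 4 := by
      rw [mul_inv_rev, inv_pow, inv_inv, inv_pow]
    rw [← h10, hT2, inv_one]

/-- The groups `Γ_{2,4}` and `Γ_{4,2}` are finite, although `{2,4}` is not in the list. -/
theorem result : Finite (Gam 2 4) ∧ Finite (Gam 4 2) := by
  constructor
  · obtain ⟨r1, r2, r3, r4, r5, r6, r7⟩ := rels24 (PresentedGroup.mk (rel 2 4)) rfl rfl rfl (key 2 4)
    exact finite_of_rels (a := PresentedGroup.of (rels := rel 2 4) 0)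
      (b := PresentedGroup.of (rels := rel 2 4) 1) (c := PresentedGroup.of (rels := rel 2 4) 2)
      ⟨r1, r2, r3, r4, r5, r6, r7⟩ (gen 2 4)
  · obtain ⟨r1, r2, r3, r4, r5, r6, r7⟩ := rels24 (PresentedGroup.mk (rel 4 2)) rfl rfl rfl (key 4 2)
    refine finite_of_rels (a := (PresentedGroup.of (rels := rel 4 2) 0)⁻¹)
      (b := PresentedGroup.of (rels := rel 4 2) 0 ^ 2 * PresentedGroup.of (rels := rel 4 2) 1)
      (c := PresentedGroup.of (rels := rel 4 2) 2) (mirror r1 r2 r3 r4 r5 r6 r7) ?_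
    rw [eq_top_iff, ← gen 4 2, Subgroup.closure_le]
    have h0 : PresentedGroup.of (rels := rel 4 2) 0 ∈ Subgroup.closure
        ({(PresentedGroup.of (rels := rel 4 2) 0)⁻¹,
          PresentedGroup.of (rels := rel 4 2) 0 ^ 2 * PresentedGroup.of (rels := rel 4 2) 1,
          PresentedGroup.of (rels := rel 4 2) 2} : Set (Gam 4 2)) := by
      rw [← Subgroup.inv_mem_iff]
      exact Subgroup.subset_closure (by simp)
    rintro x (rfl | rfl | rfl)
    · exact h0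
    · have h1 : PresentedGroup.of (rels := rel 4 2) 0 ^ 2 * PresentedGroup.of (rels := rel 4 2) 1 ∈
          Subgroup.closure
        ({(PresentedGroup.of (rels := rel 4 2) 0)⁻¹,
          PresentedGroup.of (rels := rel 4 2) 0 ^ 2 * PresentedGroup.of (rels := rel 4 2) 1,
          PresentedGroup.of (rels := rel 4 2) 2} : Set (Gam 4 2)) :=
        Subgroup.subset_closure (by simp)
      exact (Subgroup.mul_mem_cancel_left _ (Subgroup.pow_mem _ h0 2)).1 h1
    · exact Subgroup.subset_closure (by simp)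

end Pool.Agent.Results.MP_9c3b79_al.FiniteTwoFour
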